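import Mathlib
import Pool.Agent.H19.OG.Bas

/-! Row INT of MP_77869b_ag (helper23). -/

set_option linter.all false

namespace Pool.OG

variable {X : Data}

namespace INTaux

theorem tri_sum1 {n : ℕ} (t : Fin n → Fin n → Fin n → ℤ) {ι : Type} (s : Finset ι) (a : ι → ℝ)
    (v : ι → Fin n → ℝ) (y z : Fin n → ℝ) :
    tri t (∑ p ∈ s, a p • v p) y z = ∑ p ∈ s, a p * tri t (v p) y z := by
  classical
  induction s using Finset.induction_on with
  | empty => simp [tri_zero1]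
  | insert p s hp ih => rw [Finset.sum_insert hp, Finset.sum_insert hp, tri_add1, tri_smul1, ih]

theorem tri_sum2 {n : ℕ} (t : Fin n → Fin n → Fin n → ℤ) {ι : Type} (s : Finset ι) (a : ι → ℝ)
    (v : ι → Fin n → ℝ) (x z : Fin n → ℝ) :
    tri t x (∑ p ∈ s, a p • v p) z = ∑ p ∈ s, a p * tri t x (v p) z := by
  classical
  induction s using Finset.induction_on with
  | empty => simp [tri_zero2]
  | insert p s hp ih => rw [Finset.sum_insert hp, Finset.sum_insert hp, tri_add2, tri_smul2, ih]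

/-- two distinct primes -/
theorem pair (hX : Facts X) {p q : X.Pr} (hpq : p ≠ q) (A : Fin X.n → ℤ) (hA : re A ∈ Nef X)
    (x : X.Pt) (R : ℝ) (hR0 : 0 ≤ R)
    (hC : ∀ C, 0 < X.mq C x → R * X.mq C x < lin (X.dg C) (re A)) :
    R * ((X.mp p x : ℝ) * (X.mp q x : ℝ)) ≤ tri X.t (re (X.cl p)) (re (X.cl q)) (re A) := by
  obtain ⟨a, h1, h2⟩ := hX.cyc.inter p q hpq
  rw [h1 A]
  have h3 : ((X.mp p x * X.mp q x : ℕ) : ℝ) ≤ ∑ C ∈ a.support, (a C : ℝ) * (X.mq C x : ℝ) := by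
    have := h2 x
    unfold Finsupp.sum at this
    exact_mod_cast this
  calc R * ((X.mp p x : ℝ) * (X.mp q x : ℝ)) = R * ((X.mp p x * X.mp q x : ℕ) : ℝ) := by push_cast; ring
    _ ≤ R * ∑ C ∈ a.support, (a C : ℝ) * (X.mq C x : ℝ) := mul_le_mul_of_nonneg_left h3 hR0
    _ = ∑ C ∈ a.support, R * ((a C : ℝ) * (X.mq C x : ℝ)) := Finset.mul_sum _ _ _
    _ ≤ ∑ C ∈ a.support, (a C : ℝ) * lin (X.dg C) (re A) := by
        refine Finset.sum_le_sum (fun C _ => ?_)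
        have ha : (0 : ℝ) ≤ a C := Nat.cast_nonneg _
        by_cases hm : 0 < X.mq C x
        · have := mul_le_mul_of_nonneg_left (hC C hm).le ha
          nlinarith
        · have h0 : X.mq C x = 0 := by omega
          rw [h0]
          simp only [Nat.cast_zero, mul_zero]
          exact mul_nonneg ha (hA C)
    _ = _ := rfl

end INTaux

open INTaux in
/-- ROW INT. -/
theorem inter_eff (hX : Facts X) (hR : ¬ X.RC) (D D' : X.Pr →₀ ℚ) (hD : ∀ p, 0 ≤ D p)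
    (hD' : ∀ p, 0 ≤ D' p) (hc : ∀ p, D p = 0 ∨ D' p = 0) (A : Fin X.n → ℤ)
    (hA : re A ∈ Nef X) (x : X.Pt) (R : ℝ)
    (hR0 : 0 ≤ R) (hC : ∀ C, 0 < X.mq C x → R * X.mq C x < lin (X.dg C) (re A)) :
    R * (mpt X D x * mpt X D' x) ≤ tri X.t (cls X D) (cls X D') (re A) := by
  unfold cls mpt Finsupp.sum
  rw [tri_sum1, Finset.sum_mul_sum, Finset.mul_sum]
  refine Finset.sum_le_sum (fun p hp => ?_)
  rw [tri_sum2, Finset.mul_sum, Finset.mul_sum]
  refine Finset.sum_le_sum (fun q hq => ?_)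
  have hpq : p ≠ q := by
    rintro rfl
    rcases hc p with h | h
    · exact (Finsupp.mem_support_iff.1 hp) h
    · exact (Finsupp.mem_support_iff.1 hq) h
  have h1 := pair hX hpq A hA x R hR0 hC
  have h2 : (0 : ℝ) ≤ ((D p : ℚ) : ℝ) := by exact_mod_cast hD p
  have h3 : (0 : ℝ) ≤ ((D' q : ℚ) : ℝ) := by exact_mod_cast hD' q
  have h4 := mul_le_mul_of_nonneg_left h1 (mul_nonneg h2 h3)
  calc R * (((D p : ℚ) : ℝ) * (X.mp p x : ℝ) * (((D' q : ℚ) : ℝ) * (X.mp q x : ℝ)))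
      = ((D p : ℚ) : ℝ) * ((D' q : ℚ) : ℝ) * (R * ((X.mp p x : ℝ) * (X.mp q x : ℝ))) := by ring
    _ ≤ _ := h4
    _ = _ := by ring

end Pool.OG
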