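import Mathlib
import Pool.Agent.H19.OG.Theory
import Pool.Agent.H19.OG.Bas
import Pool.Agent.H23.OG.INT

/-! Rows DEG, AVD, MUL of MP_77869b_ag (helper23). -/

set_option linter.all false

namespace Pool.OG

variable {X : Data}

/-- ROW DEG: `D - ε A` is nef for `D` ample and every `A`. -/
theorem ample_deg_of (hP : Positivity X) (D : Fin X.n → ℤ) (hD : X.Ample D) (C : X.Cv) :
    0 < lin (X.dg C) (re D) := by
  have h1 := (hP.kleiman D).1 hD
  obtain ⟨ε, hε, h2⟩ := int_absorb h1 (re (X.dg C))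
  have h3 := int_nef h2 C
  rw [lin_sub, lin_smul] at h3
  have h4 : 0 < lin (X.dg C) (re (X.dg C)) := by
    obtain ⟨j, hj⟩ := Function.ne_iff.1 (hP.cv_ne C)
    unfold lin re
    refine Finset.sum_pos' (fun i _ => mul_self_nonneg _) ⟨j, Finset.mem_univ j, ?_⟩
    have : ((X.dg C j : ℤ) : ℝ) ≠ 0 := by exact_mod_cast hj
    exact mul_self_pos.2 this
  nlinarith

namespace AVDaux

/-- a multiple of an effective rational divisor -/
theorem eff_smul {E : X.Pr →₀ ℚ} {H : Fin X.n → ℤ} {k : ℕ} (hk : 0 < k)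
    (hE : Eff X E ((k : ℤ) • H)) : Eff X ((1 / (k : ℚ)) • E) H := by
  have hk' : (k : ℝ) ≠ 0 := by exact_mod_cast hk.ne'
  refine ⟨fun p => ?_, ?_⟩
  · rw [Finsupp.smul_apply, smul_eq_mul]
    exact mul_nonneg (by positivity) (hE.1 p)
  · have h1 : cls X ((1 / (k : ℚ)) • E) = (1 / (k : ℝ)) • cls X E := by
      unfold cls
      rw [Finsupp.sum_smul_index' (fun p => by simp), Finsupp.smul_sum]
      refine Finsupp.sum_congr (fun p _ => ?_)
      rw [smul_eq_mul, smul_smul]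
      push_cast
      rfl
    rw [h1, hE.2, re_smul, smul_smul]
    have h2 : (1 / (k : ℝ)) * ((k : ℤ) : ℝ) = 1 := by
      push_cast
      field_simp
    rw [h2, one_smul]

/-- an effective divisor of multiplicity zero at a point contains no prime through it -/
theorem zero_of {E : X.Pr →₀ ℚ} (hE : ∀ p, 0 ≤ E p) {x : X.Pt} (h0 : mpt X E x = 0) {p : X.Pr}
    (hp : 0 < X.mp p x) : E p = 0 := by
  by_contra hne
  have hmem : p ∈ E.support := Finsupp.mem_support_iff.2 hne
  have h1 : (0 : ℝ) < ((E p : ℚ) : ℝ) * (X.mp p x : ℝ) := by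
    have a1 : 0 < E p := lt_of_le_of_ne (hE p) (Ne.symm hne)
    have a2 : (0 : ℝ) < ((E p : ℚ) : ℝ) := by exact_mod_cast a1
    have a3 : (0 : ℝ) < (X.mp p x : ℝ) := by exact_mod_cast hp
    exact mul_pos a2 a3
  have h2 : ((E p : ℚ) : ℝ) * (X.mp p x : ℝ) ≤ mpt X E x := by
    unfold mpt Finsupp.sum
    exact Finset.single_le_sum (f := fun q => ((E q : ℚ) : ℝ) * (X.mp q x : ℝ))
      (fun q _ => mul_nonneg (by exact_mod_cast hE q) (Nat.cast_nonneg _)) hmem
  linarith

/-- an ample class has an effective member which avoids a given point -/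
theorem avoid_pt (hS : Sections X) (x : X.Pt) (H : Fin X.n → ℤ) (hH : X.Ample H) :
    ∃ D, Eff X D H ∧ ∀ p, 0 < X.mp p x → D p = 0 := by
  obtain ⟨S, -, -, h3, h4⟩ := hS.val x
  obtain ⟨k, hk, h5, -⟩ := h4 H hH
  obtain ⟨-, -, -, E, hE, hEx⟩ := h3 _ _ h5
  refine ⟨(1 / (k : ℚ)) • E, eff_smul hk hE, fun p hp => ?_⟩
  rw [Finsupp.smul_apply, zero_of hE.1 (by simpa using hEx) hp, smul_zero]

end AVDaux

open AVDaux in
/-- ROW AVD: an ample class has effective members which avoid a given finite set of primes. -/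
theorem avoid (hY : Cycles X) (hS : Sections X) (x₀ : X.Pt) (H : Fin X.n → ℤ) (hH : X.Ample H)
    (S : Finset X.Pr) : ∃ D, Eff X D H ∧ ∀ p ∈ S, D p = 0 := by
  classical
  induction S using Finset.induction_on with
  | empty =>
    obtain ⟨D, hD, -⟩ := avoid_pt hS x₀ H hH
    exact ⟨D, hD, fun p hp => absurd hp (Finset.notMem_empty p)⟩
  | insert p S hp ih =>
    obtain ⟨D₁, h1, h2⟩ := ih
    obtain ⟨x, hx⟩ := hY.pr_pt p
    obtain ⟨D₂, h3, h4⟩ := avoid_pt hS x H hH
    obtain ⟨D, h5, h6, -⟩ := hY.pencil H D₁ D₂ h1 h3 (insert p S) x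
    refine ⟨D, h5, fun q hq => h6 q hq ?_⟩
    rcases Finset.mem_insert.1 hq with h | h
    · right
      rw [h]
      exact h4 p hx
    · left
      exact h2 q h

namespace MULaux

theorem tri_tendsto {n : ℕ} (t : Fin n → Fin n → Fin n → ℤ) {u v w : ℕ → Fin n → ℝ}
    {x y z : Fin n → ℝ} (hu : Filter.Tendsto u Filter.atTop (nhds x))
    (hv : Filter.Tendsto v Filter.atTop (nhds y)) (hw : Filter.Tendsto w Filter.atTop (nhds z)) :
    Filter.Tendsto (fun m => tri t (u m) (v m) (w m)) Filter.atTop (nhds (tri t x y z)) := by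
  unfold tri
  refine tendsto_finset_sum _ (fun i _ => tendsto_finset_sum _ (fun j _ =>
    tendsto_finset_sum _ (fun k _ => ?_)))
  exact ((tendsto_const_nhds.mul ((tendsto_pi_nhds.1 hu) i)).mul ((tendsto_pi_nhds.1 hv) j)).mul
    ((tendsto_pi_nhds.1 hw) k)

/-- integral approximations -/
noncomputable def ap {n : ℕ} (m : ℕ) (u : Fin n → ℝ) : Fin n → ℤ := fun i => ⌊((m : ℝ) + 1) * u i⌋

theorem ap_tendsto {n : ℕ} (u : Fin n → ℝ) :
    Filter.Tendsto (fun m : ℕ => (1 / ((m : ℝ) + 1)) • re (ap m u)) Filter.atTop (nhds u) := by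
  rw [tendsto_pi_nhds]
  intro i
  rw [tendsto_iff_dist_tendsto_zero]
  refine squeeze_zero (fun _ => dist_nonneg) (fun m => ?_) tendsto_one_div_add_atTop_nhds_zero_nat
  have hm : (0 : ℝ) < (m : ℝ) + 1 := by positivity
  rw [Real.dist_eq]
  have h1 : (⌊((m : ℝ) + 1) * u i⌋ : ℝ) ≤ ((m : ℝ) + 1) * u i := Int.floor_le _
  have h2 : ((m : ℝ) + 1) * u i < (⌊((m : ℝ) + 1) * u i⌋ : ℝ) + 1 := Int.lt_floor_add_one _
  have h3 : ((1 / ((m : ℝ) + 1)) • re (ap m u)) i - u i =
      ((⌊((m : ℝ) + 1) * u i⌋ : ℝ) - ((m : ℝ) + 1) * u i) / ((m : ℝ) + 1) := by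
    simp only [Pi.smul_apply, smul_eq_mul, re, ap]
    field_simp
  rw [h3, abs_div, abs_of_pos hm, div_le_div_iff_of_pos_right hm, abs_le]
  constructor <;> linarith

/-- the integral approximations of an interior class are ample -/
theorem ap_ample (hP : Positivity X) {u : Fin X.n → ℝ} (hu : u ∈ interior (Nef X)) :
    ∀ᶠ m : ℕ in Filter.atTop, X.Ample (ap m u) := by
  have h1 := (ap_tendsto u).eventually (isOpen_interior.mem_nhds hu)
  filter_upwards [h1] with m hm
  rw [hP.kleiman]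
  have h2 : re (ap m u) = ((m : ℝ) + 1) • ((1 / ((m : ℝ) + 1)) • re (ap m u)) := by
    rw [smul_smul, mul_one_div_cancel (by positivity), one_smul]
  rw [h2]
  exact int_smul (by positivity) hm

/-- three ample classes -/
theorem ample3 (hP : Positivity X) (hY : Cycles X) (hS : Sections X) (x₀ : X.Pt)
    (A B C : Fin X.n → ℤ) (hA : X.Ample A) (hB : X.Ample B) (hC : X.Ample C) :
    0 ≤ tri X.t (re A) (re B) (re C) := by
  obtain ⟨D, hD, -⟩ := avoid hY hS x₀ A hA ∅
  obtain ⟨E, hE, hE0⟩ := avoid hY hS x₀ B hB D.support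
  rw [← hD.2, ← hE.2]
  unfold cls Finsupp.sum
  rw [INTaux.tri_sum1]
  refine Finset.sum_nonneg (fun p hp => mul_nonneg (by exact_mod_cast hD.1 p) ?_)
  rw [INTaux.tri_sum2]
  refine Finset.sum_nonneg (fun q hq => mul_nonneg (by exact_mod_cast hE.1 q) ?_)
  have hpq : p ≠ q := by
    rintro rfl
    exact (Finsupp.mem_support_iff.1 hq) (hE0 p hp)
  obtain ⟨a, h1, -⟩ := hY.inter p q hpq
  rw [h1 C]
  unfold Finsupp.sum
  exact Finset.sum_nonneg (fun c _ => mul_nonneg (Nat.cast_nonneg _) (ample_deg_of hP C hC c).le)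

end MULaux

open MULaux in
/-- ROW MUL: intersection numbers of nef classes are nonnegative. -/
theorem nef_mul_of (hP : Positivity X) (hY : Cycles X) (hS : Sections X) (x₀ : X.Pt) :
    ∀ x ∈ Nef X, ∀ y ∈ Nef X, ∀ z ∈ Nef X, 0 ≤ tri X.t x y z := by
  -- interior classes
  have hint : ∀ x ∈ interior (Nef X), ∀ y ∈ interior (Nef X), ∀ z ∈ interior (Nef X),
      0 ≤ tri X.t x y z := by
    intro x hx y hy z hz
    have h1 : Filter.Tendsto (fun m : ℕ => tri X.t ((1 / ((m : ℝ) + 1)) • re (ap m x))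
        ((1 / ((m : ℝ) + 1)) • re (ap m y)) ((1 / ((m : ℝ) + 1)) • re (ap m z))) Filter.atTop
        (nhds (tri X.t x y z)) :=
      tri_tendsto X.t (ap_tendsto x) (ap_tendsto y) (ap_tendsto z)
    refine ge_of_tendsto h1 ?_
    filter_upwards [ap_ample hP hx, ap_ample hP hy, ap_ample hP hz] with m h2 h3 h4
    rw [tri_smul1, tri_smul2, tri_smul3]
    have h5 := ample3 hP hY hS x₀ _ _ _ h2 h3 h4
    positivity
  obtain ⟨H, hH⟩ := hP.projective
  have hHi := (hP.kleiman H).1 hH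
  intro x hx y hy z hz
  have hc : ∀ u : Fin X.n → ℝ, Filter.Tendsto (fun m : ℕ => (1 / ((m : ℝ) + 1)) • re H + u)
      Filter.atTop (nhds u) := by
    intro u
    have h1 : Filter.Tendsto (fun m : ℕ => (1 / ((m : ℝ) + 1)) • re H + u) Filter.atTop
        (nhds ((0 : ℝ) • re H + u)) :=
      (tendsto_one_div_add_atTop_nhds_zero_nat.smul_const _).add_const _
    simpa using h1
  have h1 : Filter.Tendsto (fun m : ℕ => tri X.t ((1 / ((m : ℝ) + 1)) • re H + x)
      ((1 / ((m : ℝ) + 1)) • re H + y) ((1 / ((m : ℝ) + 1)) • re H + z)) Filter.atTop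
      (nhds (tri X.t x y z)) :=
    tri_tendsto X.t (hc x) (hc y) (hc z)
  refine ge_of_tendsto' h1 (fun m => ?_)
  have hm : (0 : ℝ) < 1 / ((m : ℝ) + 1) := by positivity
  exact hint _ (int_add (int_smul hm hHi) hx) _ (int_add (int_smul hm hHi) hy) _
    (int_add (int_smul hm hHi) hz)

end Pool.OG
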