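import Mathlib
import Pool.Agent.H19.OG.Defs
import Pool.Agent.H19.OG.Bas

/-!
Row F6 (Step 6).
-/

set_option autoImplicit false

namespace Pool.OG

variable {X : Data}

namespace F6

theorem lin_sum54 {n : ℕ} (c : Fin n → ℤ) {ι : Type} (s : Finset ι) (a : ι → ℝ)
    (v : ι → Fin n → ℝ) : lin c (∑ p ∈ s, a p • v p) = ∑ p ∈ s, a p * lin c (v p) := by
  classical
  induction s using Finset.induction_on with
  | empty => simpa using lin_zero c
  | insert p s hp ih => rw [Finset.sum_insert hp, Finset.sum_insert hp, lin_add, lin_smul, ih]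

theorem lin_cls (C : X.Cv) (D : X.Pr →₀ ℚ) :
    lin (X.dg C) (cls X D) = ∑ p ∈ D.support, ((D p : ℚ) : ℝ) * lin (X.dg C) (re (X.cl p)) := by
  unfold cls Finsupp.sum
  exact lin_sum54 _ _ _ _

/-- Bezout for an effective rational divisor which does not contain the curve. -/
theorem bez_eff (hC : Cyc X) {D : X.Pr →₀ ℚ} (hD : ∀ p, 0 ≤ D p) {C : X.Cv} {x : X.Pt}
    (h0 : mcv X D C = 0) : mpt X D x * (X.mq C x : ℝ) ≤ lin (X.dg C) (cls X D) := by
  rw [lin_cls]
  unfold mpt Finsupp.sum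
  rw [Finset.sum_mul]
  apply Finset.sum_le_sum
  intro p hp
  have hD' : (0 : ℝ) ≤ ((D p : ℚ) : ℝ) := by exact_mod_cast hD p
  have hz : ((D p : ℚ) : ℝ) * (X.mc p C : ℝ) = 0 := by
    unfold mcv Finsupp.sum at h0
    rw [Finset.sum_eq_zero_iff_of_nonneg] at h0
    · exact h0 p hp
    · intro q _
      exact mul_nonneg (by exact_mod_cast hD q) (by positivity)
  have hne : ((D p : ℚ) : ℝ) ≠ 0 := by
    have := Finsupp.mem_support_iff.1 hp
    exact_mod_cast this
  have hmc : X.mc p C = 0 := by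
    rcases mul_eq_zero.1 hz with h | h
    · exact absurd h hne
    · exact_mod_cast h
  have hb := hC.bez p C x hmc
  rw [mul_assoc]
  exact mul_le_mul_of_nonneg_left hb hD'

theorem mcv_le_mpt (hC : Cyc X) {D : X.Pr →₀ ℚ} (hD : ∀ p, 0 ≤ D p) {C : X.Cv} {x : X.Pt}
    (hx : 0 < X.mq C x) : mcv X D C ≤ mpt X D x := by
  unfold mcv mpt Finsupp.sum
  apply Finset.sum_le_sum
  intro p _
  have hD' : (0 : ℝ) ≤ ((D p : ℚ) : ℝ) := by exact_mod_cast hD p
  apply mul_le_mul_of_nonneg_left _ hD'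
  exact_mod_cast hC.mc_le p C x hx

/-- The multiplicity along a curve of small degree. -/
theorem mcv_ge (hX : Facts X) {V : Set X.Pt} (hV : VG X V) {H : Fin X.n → ℤ} (ha : X.Ample H)
    {x : X.Pt} (hx : x ∈ V) {C : X.Cv} (hC : 0 < X.mq C x) {c : ℝ}
    (hCd : lin (X.dg C) (re H) ≤ c * X.mq C x) {D : X.Pr →₀ ℚ} (hD : Eff X D H) :
    mpt X D x - c ≤ mcv X D C := by
  obtain ⟨D', hD', h0, hle⟩ := hV.curve H ha x hx C hC D hD
  have hb := bez_eff hX.cyc (x := x) hD'.1 h0
  rw [hD'.2] at hb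
  have hq : (0 : ℝ) < X.mq C x := by exact_mod_cast hC
  have h1 : mpt X D' x ≤ c := le_of_mul_le_mul_right (hb.trans hCd) hq
  linarith

/-- The set of the curves along which the multiplicity is larger than all coefficients is
finite. -/
theorem fin_curves (hC : Cyc X) {D : X.Pr →₀ ℚ} {c : ℝ} (hc0 : 0 ≤ c)
    (hc : ∀ p, (D p : ℝ) ≤ c) : {C | c < mcv X D C}.Finite := by
  classical
  have hfin : ((⋃ p ∈ D.support, {C | 1 < X.mc p C}) ∪
      ⋃ p ∈ D.support, ⋃ q ∈ D.support, {C | p ≠ q ∧ 0 < X.mc p C ∧ 0 < X.mc q C}).Finite := by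
    apply Set.Finite.union
    · exact Set.Finite.biUnion D.support.finite_toSet fun p _ => hC.pr_sing p
    · refine Set.Finite.biUnion D.support.finite_toSet fun p _ => ?_
      refine Set.Finite.biUnion D.support.finite_toSet fun q _ => ?_
      by_cases hpq : p = q
      · have : {C | p ≠ q ∧ 0 < X.mc p C ∧ 0 < X.mc q C} = ∅ := by
          ext C
          simp [hpq]
        rw [this]
        exact Set.finite_empty
      · exact (hC.pr_meet p q hpq).subset fun C h => h.2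
  refine hfin.subset fun C hCm => ?_
  by_contra hn
  rw [Set.mem_union, not_or] at hn
  obtain ⟨hn1, hn2⟩ := hn
  have h1 : ∀ p ∈ D.support, X.mc p C ≤ 1 := by
    intro p hp
    by_contra h
    apply hn1
    rw [Set.mem_iUnion₂]
    exact ⟨p, hp, by simpa using h⟩
  have h2 : ∀ p ∈ D.support, ∀ q ∈ D.support, 0 < X.mc p C → 0 < X.mc q C → p = q := by
    intro p hp q hq hp0 hq0
    by_contra h
    apply hn2
    rw [Set.mem_iUnion₂]
    refine ⟨p, hp, ?_⟩
    rw [Set.mem_iUnion₂]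
    exact ⟨q, hq, h, hp0, hq0⟩
  have hle : mcv X D C ≤ c := by
    unfold mcv Finsupp.sum
    by_cases hex : ∃ p ∈ D.support, 0 < X.mc p C
    · obtain ⟨p, hp, hp0⟩ := hex
      have hp1 : X.mc p C = 1 := by
        have := h1 p hp
        omega
      rw [Finset.sum_eq_single p]
      · change ((D p : ℚ) : ℝ) * (X.mc p C : ℝ) ≤ c
        rw [hp1, Nat.cast_one, mul_one]
        exact hc p
      · intro q hq hqp
        have : X.mc q C = 0 := by
          by_contra h
          exact hqp (h2 q hq p hp (by omega) hp0)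
        change ((D q : ℚ) : ℝ) * (X.mc q C : ℝ) = 0
        rw [this, Nat.cast_zero, mul_zero]
      · intro h
        exact absurd hp h
    · push Not at hex
      rw [Finset.sum_eq_zero]
      · exact hc0
      · intro p hp
        have : X.mc p C = 0 := by
          have := hex p hp
          omega
        change ((D p : ℚ) : ℝ) * (X.mc p C : ℝ) = 0
        rw [this, Nat.cast_zero, mul_zero]
  have hCm' : c < mcv X D C := hCm
  linarith

end F6

/-- ROW F6 (Step 6). -/
theorem step6 (hX : Facts X) (hR : ¬ X.RC) (V : Set X.Pt) (hV : VG X V)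
    (H : Fin X.n → ℤ) (ha : X.Ample H) (C₁ C₆ : ℝ)
    (hC₁ : ∀ D, Eff X D H → ∀ p, (D p : ℝ) ≤ C₁)
    (x : X.Pt) (hx : x ∈ V) (hD : ∃ D, Eff X D H ∧ C₁ + 2 * C₆ < mpt X D x)
    (C : X.Cv) (hC : 0 < X.mq C x)
    (hCd : lin (X.dg C) (re H) ≤ C₆ * X.mq C x) :
    ∃ S : Finset X.Pt, ∀ z ∈ V, 0 < X.mq C z → z ∉ S → ∀ C', 0 < X.mq C' z →
      lin (X.dg C') (re H) ≤ C₆ * X.mq C' z → C' = C := by
  classical
  obtain ⟨D, hD, hDx⟩ := hD
  -- the bound is nonnegative
  have hC₁0 : 0 ≤ C₁ := by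
    by_contra hneg
    push Not at hneg
    have hempty : D = 0 := by
      ext p
      exfalso
      have h1 := hC₁ D hD p
      have h2 : (0 : ℝ) ≤ ((D p : ℚ) : ℝ) := by exact_mod_cast hD.1 p
      linarith
    have h3 : re H = 0 := by
      rw [← hD.2, hempty]
      simp [cls]
    have h4 := hX.pos.ample_cube H ha
    rw [h3, tri_zero1] at h4
    exact lt_irrefl _ h4
  have h1 := F6.mcv_ge hX hV ha hx hC hCd hD
  have hfin := F6.fin_curves (c := C₁) hX.cyc hC₁0 (hC₁ D hD)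
  have hS : (⋃ C' ∈ hfin.toFinset, {z | C' ≠ C ∧ 0 < X.mq C z ∧ 0 < X.mq C' z}).Finite := by
    refine Set.Finite.biUnion hfin.toFinset.finite_toSet fun C' _ => ?_
    by_cases h : C' = C
    · have : {z | C' ≠ C ∧ 0 < X.mq C z ∧ 0 < X.mq C' z} = ∅ := by
        ext z
        simp [h]
      rw [this]
      exact Set.finite_empty
    · exact (hX.cyc.cv_meet C C' (Ne.symm h)).subset fun z hz => hz.2
  refine ⟨hS.toFinset, ?_⟩
  intro z hz hCz hzS C' hC' hC'd
  by_contra hne
  apply hzS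
  rw [Set.Finite.mem_toFinset, Set.mem_iUnion₂]
  refine ⟨C', ?_, hne, hCz, hC'⟩
  rw [Set.Finite.mem_toFinset]
  change C₁ < mcv X D C'
  have h2 := F6.mcv_ge hX hV ha hz hC' hC'd hD
  have h3 := F6.mcv_le_mpt hX.cyc hD.1 hCz
  linarith

end Pool.OG
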