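import Pool.Agent.H19.OG.Defs
import Pool.Agent.H19.OG.Bas
import Pool.Agent.H20.OG.WID
import Pool.Agent.H23.OG.INT

/-!
# OG, row F5 (Step 5)
-/

set_option autoImplicit false

namespace Pool.OG

variable {X : Data}

namespace F5

/-- The rational divisor `G` is the part of `D` outside the point `x`: the multiplicity does not
change when it is removed. -/
theorem mpt_part (D G : X.Pr →₀ ℚ) (x : X.Pt) (hG : ∀ p, G p ≠ 0 → X.mp p x = 0) :
    mpt X (D - G) x = mpt X D x := by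
  have h1 : mpt X G x = 0 := by
    unfold mpt Finsupp.sum
    refine Finset.sum_eq_zero fun p hp => ?_
    show ((G p : ℚ) : ℝ) * (X.mp p x : ℝ) = 0
    rw [hG p (Finsupp.mem_support_iff.1 hp), Nat.cast_zero, mul_zero]
  have h2 := mpt_add (X := X) (D - G) G x
  rw [sub_add_cancel, h1, add_zero] at h2
  exact h2.symm

theorem cls_sub (D G : X.Pr →₀ ℚ) : cls X (D - G) = cls X D - cls X G := by
  have h2 := cls_add (X := X) (D - G) G
  rw [sub_add_cancel] at h2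
  rw [h2, add_sub_cancel_right]

/-- A divisor of large multiplicity which contains none of finitely many primes. -/
theorem avoid (hX : Facts X) {V : Set X.Pt} (hV : VG X V) {H : Fin X.n → ℤ} (ha : X.Ample H)
    {x : X.Pt} (hx : x ∈ V) {D : X.Pr →₀ ℚ} (hD : Eff X D H) {C₁ α : ℝ}
    (hC₁ : ∀ p, (D p : ℝ) ≤ C₁) (hα : α + C₁ ≤ mpt X D x) (hα' : α ≤ mpt X D x)
    (S : Finset X.Pr) (hS : ∀ p ∈ S, 0 < X.mp p x) :
    ∃ D', Eff X D' H ∧ (∀ p ∈ S, D' p = 0) ∧ α ≤ mpt X D' x := by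
  classical
  induction S using Finset.induction_on with
  | empty => exact ⟨D, hD, fun p hp => absurd hp (Finset.notMem_empty p), hα'⟩
  | insert p S hp ih =>
    obtain ⟨D₁, h1, h2, h3⟩ := ih fun q hq => hS q (Finset.mem_insert_of_mem hq)
    obtain ⟨D₂, h4, h5, h6⟩ := hV.prime H ha x hx p (hS p (Finset.mem_insert_self p S)) D hD
    obtain ⟨D₃, h7, h8, h9⟩ := hX.cyc.pencil H D₁ D₂ h1 h4 (insert p S) x
    refine ⟨D₃, h7, fun q hq => h8 q hq ?_, ?_⟩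
    · rcases Finset.mem_insert.1 hq with h | h
      · right
        rw [h]
        exact h5
      · left
        exact h2 q h
    · refine le_trans (le_min h3 ?_) h9
      have := hC₁ p
      linarith

end F5

open F5 in
/-- ROW F5 (Step 5), from the rows WID and INT. -/
theorem step5_of (hX : Facts X) (hR : ¬ X.RC)
    (hW : ∀ (H : Fin X.n → ℤ) (_ : X.Ample H) (x : X.Pt) (μ : ℝ) (_ : 0 ≤ μ)
      (_ : ∀ D, Eff X D H → mpt X D x ≤ μ), lin X.c2 (re H) / 12 ≤ 3 * (μ + 1) ^ 2)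
    (hI : ∀ (D D' : X.Pr →₀ ℚ) (_ : ∀ p, 0 ≤ D p) (_ : ∀ p, 0 ≤ D' p)
      (_ : ∀ p, D p = 0 ∨ D' p = 0) (A : Fin X.n → ℤ) (_ : re A ∈ Nef X) (x : X.Pt) (R : ℝ)
      (_ : 0 ≤ R) (_ : ∀ C, 0 < X.mq C x → R * X.mq C x < lin (X.dg C) (re A)),
      R * (mpt X D x * mpt X D' x) ≤ tri X.t (cls X D) (cls X D') (re A))
    (V : Set X.Pt) (hV : VG X V)
    (H : ℕ → Fin X.n → ℤ) (b : ℕ → ℝ) (q c C₁ : ℝ) (ha : ∀ k, X.Ample (H k)) (hq : 0 < q)
    (hc : 0 < c) (hcube : ∀ k, tri X.t (re (H k)) (re (H k)) (re (H k)) = q * b k)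
    (hc2 : ∀ k, lin X.c2 (re (H k)) = c * b k)
    (hb : Filter.Tendsto b Filter.atTop Filter.atTop)
    (hC₁ : ∀ k D, Eff X D (H k) → ∀ p, (D p : ℝ) ≤ C₁) :
    ∃ C₃ : ℝ, 0 < C₃ ∧ ∃ N, ∀ k, N ≤ k → ∀ x ∈ V, ∃ C, 0 < X.mq C x ∧
      lin (X.dg C) (re (H k)) ≤ C₃ * X.mq C x := by
  classical
  obtain ⟨C₃, hC₃⟩ : ∃ C₃ : ℝ, C₃ = 1248 * q / c + 1 := ⟨_, rfl⟩
  have hC₃0 : 0 < C₃ := by
    rw [hC₃]
    positivity
  obtain ⟨K, hK⟩ : ∃ K : ℝ, K = 312 / c + 312 * (2 * |C₁|) ^ 2 / c + 1 := ⟨_, rfl⟩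
  obtain ⟨N, hN⟩ := (hb.eventually (Filter.eventually_gt_atTop K)).exists_forall_of_atTop
  refine ⟨C₃, hC₃0, N, fun k hk x hx => ?_⟩
  have hbk := hN k hk
  have hbk1 : 312 / c < b k := by
    have : 0 ≤ 312 * (2 * |C₁|) ^ 2 / c := by positivity
    linarith
  have hbk2 : 312 * (2 * |C₁|) ^ 2 / c < b k := by
    have : 0 < 312 / c := by positivity
    linarith
  rw [div_lt_iff₀ hc] at hbk1 hbk2
  have hbk0 : 0 < c * b k := by linarith
  have hb0 : 0 < b k := by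
    by_contra h
    have : b k * c ≤ 0 := mul_nonpos_of_nonpos_of_nonneg (not_lt.1 h) hc.le
    linarith
  -- the width is large
  obtain ⟨T, hT⟩ : ∃ T : ℝ, T = Real.sqrt (c * b k / 312) := ⟨_, rfl⟩
  have hT2 : T ^ 2 = c * b k / 312 := by
    rw [hT, Real.sq_sqrt (by positivity)]
  have hT0 : 0 < T := by
    rw [hT]
    exact Real.sqrt_pos.2 (by positivity)
  have hT1 : 1 ≤ T := by
    have h1 : (1 : ℝ) ^ 2 ≤ T ^ 2 := by
      rw [hT2]
      linarith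
    exact le_of_sq_le_sq h1 hT0.le
  have hTC : 2 * |C₁| ≤ T := by
    have h1 : (2 * |C₁|) ^ 2 ≤ T ^ 2 := by
      rw [hT2]
      linarith
    exact le_of_sq_le_sq h1 hT0.le
  have hCabs := le_abs_self C₁
  obtain ⟨D₀, hD₀, hD₀x⟩ : ∃ D, Eff X D (H k) ∧ T < mpt X D x := by
    by_contra h
    push Not at h
    have h1 := hW (H k) (ha k) x T hT0.le h
    rw [hc2] at h1
    have h2 : (T + 1) ^ 2 ≤ 4 * T ^ 2 := by nlinarith
    rw [hT2] at h2
    nlinarith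
  -- a second divisor without common prime through `x`
  obtain ⟨D₁, hD₁, hD₁S, hD₁x⟩ := avoid hX hV (ha k) hx hD₀ (hC₁ k D₀ hD₀) (α := T / 2)
    (by linarith) (by linarith) (D₀.support.filter fun p => 0 < X.mp p x)
    (fun p hp => (Finset.mem_filter.1 hp).2)
  have hdis : ∀ p, 0 < X.mp p x → D₀ p = 0 ∨ D₁ p = 0 := by
    intro p hp
    by_cases h : D₀ p = 0
    · exact Or.inl h
    · exact Or.inr (hD₁S p (Finset.mem_filter.2 ⟨Finsupp.mem_support_iff.2 h, hp⟩))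
  -- the common part
  obtain ⟨G, hG⟩ : ∃ G : X.Pr →₀ ℚ, ∀ p, G p = min (D₀ p) (D₁ p) := by
    refine ⟨Finsupp.zipWith min (min_self 0) D₀ D₁, fun p => ?_⟩
    rw [Finsupp.zipWith_apply]
  have hG0 : ∀ p, 0 ≤ G p := fun p => by
    rw [hG]
    exact le_min (hD₀.1 p) (hD₁.1 p)
  have hGx : ∀ p, G p ≠ 0 → X.mp p x = 0 := by
    intro p hp
    by_contra h
    apply hp
    rw [hG]
    rcases hdis p (Nat.pos_of_ne_zero h) with h1 | h1
    · rw [h1]
      exact min_eq_left (hD₁.1 p)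
    · rw [h1]
      exact min_eq_right (hD₀.1 p)
  have hE0 : ∀ p, 0 ≤ (D₀ - G) p := fun p => by
    rw [Finsupp.sub_apply, hG]
    exact sub_nonneg.2 (min_le_left _ _)
  have hE1 : ∀ p, 0 ≤ (D₁ - G) p := fun p => by
    rw [Finsupp.sub_apply, hG]
    exact sub_nonneg.2 (min_le_right _ _)
  have hE : ∀ p, (D₀ - G) p = 0 ∨ (D₁ - G) p = 0 := by
    intro p
    rw [Finsupp.sub_apply, Finsupp.sub_apply, hG]
    rcases le_total (D₀ p) (D₁ p) with h | h
    · left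
      rw [min_eq_left h, sub_self]
    · right
      rw [min_eq_right h, sub_self]
  by_contra hcon
  push Not at hcon
  have h1 := hI (D₀ - G) (D₁ - G) hE0 hE1 hE (H k) (ample_nef hX.pos (ha k)) x C₃ hC₃0.le hcon
  rw [mpt_part _ _ _ hGx, mpt_part _ _ _ hGx] at h1
  -- the intersection number
  have hN0 := eff_nef hX.pos hX.coh hX.cyc hR hE0
  have hN1 := eff_nef hX.pos hX.coh hX.cyc hR hE1
  have hNG := eff_nef hX.pos hX.coh hX.cyc hR hG0
  have hNH := ample_nef hX.pos (ha k)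
  have h2 : tri X.t (cls X (D₀ - G)) (cls X (D₁ - G)) (re (H k)) ≤ q * b k := by
    rw [← hcube k]
    have e0 : re (H k) = cls X (D₀ - G) + cls X G := by
      rw [cls_sub, sub_add_cancel, hD₀.2]
    have e1 : re (H k) = cls X (D₁ - G) + cls X G := by
      rw [cls_sub, sub_add_cancel, hD₁.2]
    have h3 : tri X.t (re (H k)) (re (H k)) (re (H k)) =
        tri X.t (cls X (D₀ - G)) (re (H k)) (re (H k)) +
          tri X.t (cls X G) (re (H k)) (re (H k)) := by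
      rw [← tri_add1, ← e0]
    have h4 : tri X.t (cls X (D₀ - G)) (re (H k)) (re (H k)) =
        tri X.t (cls X (D₀ - G)) (cls X (D₁ - G)) (re (H k)) +
          tri X.t (cls X (D₀ - G)) (cls X G) (re (H k)) := by
      rw [← tri_add2, ← e1]
    have h5 := hX.pos.nef_mul _ hNG _ hNH _ hNH
    have h6 := hX.pos.nef_mul _ hN0 _ hNG _ hNH
    linarith
  have h3 : (T / 2) ^ 2 ≤ mpt X D₀ x * mpt X D₁ x := by
    rw [sq]
    exact mul_le_mul (by linarith) hD₁x (by linarith) (by linarith)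
  have h4 : C₃ * (T / 2) ^ 2 ≤ q * b k := by
    refine le_trans (mul_le_mul_of_nonneg_left h3 hC₃0.le) (h1.trans h2)
  have h5 : (T / 2) ^ 2 = c * b k / 1248 := by
    rw [div_pow, hT2]
    ring
  rw [h5, hC₃] at h4
  have h6 : (1248 * q / c + 1) * (c * b k / 1248) = q * b k + c * b k / 1248 := by
    field_simp
  rw [h6] at h4
  linarith

/-- ROW F5 (Step 5). -/
theorem step5 (hX : Facts X) (hR : ¬ X.RC) (V : Set X.Pt) (hV : VG X V)
    (H : ℕ → Fin X.n → ℤ) (b : ℕ → ℝ) (q c C₁ : ℝ) (ha : ∀ k, X.Ample (H k)) (hq : 0 < q)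
    (hc : 0 < c) (hcube : ∀ k, tri X.t (re (H k)) (re (H k)) (re (H k)) = q * b k)
    (hc2 : ∀ k, lin X.c2 (re (H k)) = c * b k)
    (hb : Filter.Tendsto b Filter.atTop Filter.atTop)
    (hC₁ : ∀ k D, Eff X D (H k) → ∀ p, (D p : ℝ) ≤ C₁) :
    ∃ C₃ : ℝ, 0 < C₃ ∧ ∃ N, ∀ k, N ≤ k → ∀ x ∈ V, ∃ C, 0 < X.mq C x ∧
      lin (X.dg C) (re (H k)) ≤ C₃ * X.mq C x :=
  step5_of hX hR (fun H hH x μ hμ h => width hX H hH x μ hμ h)
    (fun D D' h1 h2 h3 A hA x R h4 h5 => inter_eff hX hR D D' h1 h2 h3 A hA x R h4 h5)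
    V hV H b q c C₁ ha hq hc hcube hc2 hb hC₁

end Pool.OG
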