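import Mathlib
import Pool.Agent.H23.OG.F5

/-! Rows COF and S5 of MP_77869b_ag (helper23). -/

set_option linter.all false

namespace Pool.OG

variable {X : Data}

/-- ROW COF: coefficients of effective divisors of an ample class. -/
theorem coef3 (hX : Facts X) (hR : ¬ X.RC) (D : Fin X.n → ℤ) (hD : X.Ample D)
    (E : X.Pr →₀ ℚ) (hE : Eff X E D) (p : X.Pr) :
    (E p : ℝ) ^ 3 ≤ tri X.t (re D) (re D) (re D) := by
  have ha : (0 : ℝ) ≤ ((E p : ℚ) : ℝ) := by exact_mod_cast hE.1 p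
  obtain ⟨a, hae⟩ : ∃ a : ℝ, a = ((E p : ℚ) : ℝ) := ⟨_, rfl⟩
  rw [← hae] at ha
  show ((E p : ℚ) : ℝ) ^ 3 ≤ _
  rw [← hae]
  have hV := pr_ample hX.coh hX.cyc hR p
  have hVn := ample_nef hX.pos hV
  have hDn := ample_nef hX.pos hD
  have h0 : re D - a • re (X.cl p) ∈ Nef X := by
    have := eff_sub_nef hX.pos hX.coh hX.cyc hR hE.1 p
    rw [hE.2] at this
    rw [hae]
    exact this
  have h1 := hX.pos.nef_mul _ h0 _ hDn _ hDn
  have h2 := hX.pos.nef_mul _ hVn _ h0 _ hDn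
  have h3 := hX.pos.nef_mul _ hVn _ hVn _ h0
  rw [tri_sub1, tri_smul1] at h1
  rw [tri_sub2, tri_smul2] at h2
  rw [tri_sub3, tri_smul3] at h3
  have h4 : 1 ≤ tri X.t (re (X.cl p)) (re (X.cl p)) (re (X.cl p)) := by
    have h5 := hX.pos.ample_cube _ hV
    rw [tri_re] at h5 ⊢
    have h6 : 0 < triZ X.t (X.cl p) (X.cl p) (X.cl p) := by exact_mod_cast h5
    exact_mod_cast h6
  generalize tri X.t (re D) (re D) (re D) = d3 at *
  generalize tri X.t (re (X.cl p)) (re D) (re D) = d2 at *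
  generalize tri X.t (re (X.cl p)) (re (X.cl p)) (re D) = d1 at *
  generalize tri X.t (re (X.cl p)) (re (X.cl p)) (re (X.cl p)) = d0 at *
  have k1 : a ≤ a * d0 := le_mul_of_one_le_right ha h4
  have k2 : a ≤ d1 := by linarith
  have k3 : a * a ≤ a * d1 := mul_le_mul_of_nonneg_left k2 ha
  have k4 : a * a ≤ d2 := by linarith
  have k5 : a * (a * a) ≤ a * d2 := mul_le_mul_of_nonneg_left k4 ha
  calc a ^ 3 = a * (a * a) := by ring
    _ ≤ a * d2 := k5
    _ ≤ d3 := by linarith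

open F5 in
/-- ROW S5: curves of small degree through the very general points. -/
theorem step5one (hX : Facts X) (hR : ¬ X.RC) (V : Set X.Pt) (hV : VG X V)
    (D : Fin X.n → ℤ) (hD : X.Ample D) (A T R : ℝ) (hA0 : 0 ≤ A) (hR0 : 0 ≤ R)
    (hA : ∀ E, Eff X E D → ∀ p, (E p : ℝ) ≤ A) (hT : 3 * (T + 1) ^ 2 < lin X.c2 (re D) / 12)
    (hAT : A < T) (hRT : tri X.t (re D) (re D) (re D) < R * (T - A) ^ 2) :
    ∀ x ∈ V, ∃ C, 0 < X.mq C x ∧ lin (X.dg C) (re D) ≤ R * X.mq C x := by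
  classical
  intro x hx
  have hT0 : 0 < T := lt_of_le_of_lt hA0 hAT
  obtain ⟨D₀, hD₀, hD₀x⟩ : ∃ E, Eff X E D ∧ T < mpt X E x := by
    by_contra h
    push Not at h
    have h1 := width hX D hD x T hT0.le h
    linarith
  obtain ⟨D₁, hD₁, hD₁S, hD₁x⟩ := avoid hX hV hD hx hD₀ (hA D₀ hD₀) (α := T - A)
    (by linarith) (by linarith) (D₀.support.filter fun p => 0 < X.mp p x)
    (fun p hp => (Finset.mem_filter.1 hp).2)
  have hdis : ∀ p, 0 < X.mp p x → D₀ p = 0 ∨ D₁ p = 0 := by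
    intro p hp
    by_cases h : D₀ p = 0
    · exact Or.inl h
    · exact Or.inr (hD₁S p (Finset.mem_filter.2 ⟨Finsupp.mem_support_iff.2 h, hp⟩))
  obtain ⟨G, hG⟩ : ∃ G : X.Pr →₀ ℚ, ∀ p, G p = min (D₀ p) (D₁ p) := by
    refine ⟨Finsupp.zipWith min (min_self 0) D₀ D₁, fun p => ?_⟩
    rw [Finsupp.zipWith_apply]
  have hG0 : ∀ p, 0 ≤ G p := fun p => by
    rw [hG]
    exact le_min (hD₀.1 p) (hD₁.1 p)
  have hGx : ∀ p, G p ≠ 0 → X.mp p x = 0 := by
    intro p hp
    by_contra h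
    apply hp
    rw [hG]
    rcases hdis p (Nat.pos_of_ne_zero h) with h1 | h1
    · rw [h1]
      exact min_eq_left (hD₁.1 p)
    · rw [h1]
      exact min_eq_right (hD₀.1 p)
  have hE0 : ∀ p, 0 ≤ (D₀ - G) p := fun p => by
    rw [Finsupp.sub_apply, hG]
    exact sub_nonneg.2 (min_le_left _ _)
  have hE1 : ∀ p, 0 ≤ (D₁ - G) p := fun p => by
    rw [Finsupp.sub_apply, hG]
    exact sub_nonneg.2 (min_le_right _ _)
  have hE : ∀ p, (D₀ - G) p = 0 ∨ (D₁ - G) p = 0 := by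
    intro p
    rw [Finsupp.sub_apply, Finsupp.sub_apply, hG]
    rcases le_total (D₀ p) (D₁ p) with h | h
    · left
      rw [min_eq_left h, sub_self]
    · right
      rw [min_eq_right h, sub_self]
  by_contra hcon
  push Not at hcon
  have h1 := inter_eff hX hR (D₀ - G) (D₁ - G) hE0 hE1 hE D (ample_nef hX.pos hD) x R hR0 hcon
  rw [mpt_part _ _ _ hGx, mpt_part _ _ _ hGx] at h1
  have hN0 := eff_nef hX.pos hX.coh hX.cyc hR hE0
  have hN1 := eff_nef hX.pos hX.coh hX.cyc hR hE1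
  have hNG := eff_nef hX.pos hX.coh hX.cyc hR hG0
  have hNH := ample_nef hX.pos hD
  have h2 : tri X.t (cls X (D₀ - G)) (cls X (D₁ - G)) (re D) ≤
      tri X.t (re D) (re D) (re D) := by
    have e0 : re D = cls X (D₀ - G) + cls X G := by
      rw [cls_sub, sub_add_cancel, hD₀.2]
    have e1 : re D = cls X (D₁ - G) + cls X G := by
      rw [cls_sub, sub_add_cancel, hD₁.2]
    have h3 : tri X.t (re D) (re D) (re D) =
        tri X.t (cls X (D₀ - G)) (re D) (re D) +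
          tri X.t (cls X G) (re D) (re D) := by
      rw [← tri_add1, ← e0]
    have h4 : tri X.t (cls X (D₀ - G)) (re D) (re D) =
        tri X.t (cls X (D₀ - G)) (cls X (D₁ - G)) (re D) +
          tri X.t (cls X (D₀ - G)) (cls X G) (re D) := by
      rw [← tri_add2, ← e1]
    have h5 := hX.pos.nef_mul _ hNG _ hNH _ hNH
    have h6 := hX.pos.nef_mul _ hN0 _ hNG _ hNH
    linarith
  have h3 : (T - A) ^ 2 ≤ mpt X D₀ x * mpt X D₁ x := by
    rw [sq]
    exact mul_le_mul (by linarith) hD₁x (by linarith) (by linarith)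
  have h4 := mul_le_mul_of_nonneg_left h3 hR0
  linarith

end Pool.OG
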