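import Mathlib

/-!
# MP_77869b (Oguiso), Steps 5, 6, 7 (helper23)

`Bk` is the bookkeeping of points, prime divisors, curves and multiplicities used in Steps 5-7;
`exists_bounded_curve` is the output: one curve with bounded degrees for all classes of the sequence.
-/

set_option linter.all false

namespace Pool.Agent.H23.OG

open Filter

/-- The bookkeeping of a threefold. -/
structure Bk where
  /-- closed points -/
  P : Type
  /-- prime divisors -/
  V : Type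
  /-- irreducible curves -/
  C : Type
  /-- rational divisor classes -/
  N : Type
  [grp : AddCommGroup N]
  [mod : Module ℚ N]
  /-- class of a prime divisor -/
  cl : V → N
  /-- multiplicity of a prime divisor at a point (positive iff the point is on it) -/
  mu : V → P → ℕ
  /-- multiplicity of a prime divisor along a curve (positive iff it contains the curve) -/
  mc : V → C → ℕ
  /-- multiplicity of a curve at a point (positive iff the point is on it) -/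
  mm : C → P → ℕ
  /-- degree of a class on a curve -/
  dot : N →ₗ[ℚ] (C → ℚ)
  /-- the cubic intersection form -/
  tri : N →ₗ[ℚ] N →ₗ[ℚ] N →ₗ[ℚ] ℚ
  /-- the ample integral classes -/
  Amp : Set N
  /-- the very general points -/
  VG : Set P

namespace Bk

variable (B : Bk)

attribute [instance] Bk.grp Bk.mod

/-- effective divisors with rational coefficients -/
def eff (D : B.V →₀ ℚ) : Prop := ∀ p, 0 ≤ D p

/-- the class of a divisor -/
noncomputable def cls : (B.V →₀ ℚ) →ₗ[ℚ] B.N := Finsupp.linearCombination ℚ B.cl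

/-- multiplicity of a divisor at a point -/
noncomputable def mx (x : B.P) : (B.V →₀ ℚ) →ₗ[ℚ] ℚ :=
  Finsupp.linearCombination ℚ (fun p => (B.mu p x : ℚ))

/-- multiplicity of a divisor along a curve -/
noncomputable def mC (c : B.C) : (B.V →₀ ℚ) →ₗ[ℚ] ℚ :=
  Finsupp.linearCombination ℚ (fun p => (B.mc p c : ℚ))

/-- nonnegative degree on every curve -/
def nef (d : B.N) : Prop := ∀ c, 0 ≤ B.dot d c

/-- `D` is an effective divisor of class `h` -/
def of (h : B.N) (D : B.V →₀ ℚ) : Prop := B.eff D ∧ B.cls D = h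

/-- The facts used in Steps 5-7. -/
structure Facts : Prop where
  /-- effective classes are nef (no rational curve: Peternell) -/
  eff_nef : ∀ D, B.eff D → B.nef (B.cls D)
  /-- ample classes are nef -/
  amp_nef : ∀ h ∈ B.Amp, B.nef h
  /-- Kleiman -/
  tri_nonneg : ∀ a b c, B.nef a → B.nef b → B.nef c → 0 ≤ B.tri a b c
  /-- multiplicity at a point of the curve -/
  mc_le : ∀ p c z, 1 ≤ B.mm c z → B.mc p c ≤ B.mu p z
  /-- a curve not contained in a prime divisor -/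
  dot_ge : ∀ p c x, B.mc p c = 0 → ((B.mu p x : ℚ) * (B.mm c x : ℚ)) ≤ B.dot (B.cl p) c
  /-- intersection of two divisors without common component -/
  cyc : ∀ D E, B.eff D → B.eff E → (∀ p, D p = 0 ∨ E p = 0) →
    ∃ Z : B.C →₀ ℚ, (∀ c, 0 ≤ Z c) ∧ (∀ h, Z.sum (fun c a => a * B.dot h c) = B.tri h (B.cls D) (B.cls E)) ∧
      ∀ x, B.mx x D * B.mx x E ≤ Z.sum (fun c a => a * (B.mm c x : ℚ))
  /-- Ein, Kuechle, Lazarsfeld, Proposition 2.3, for a prime divisor -/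
  eklV : ∀ x ∈ B.VG, ∀ h ∈ B.Amp, ∀ α β : ℝ, 0 ≤ α → α < β → ∀ W, 1 ≤ B.mu W x →
    (∀ D, B.of h D → α < (B.mx x D : ℝ) → D W ≠ 0) →
    ∀ D, B.of h D → β ≤ (B.mx x D : ℝ) → β - α ≤ (D W : ℝ)
  /-- Ein, Kuechle, Lazarsfeld, Proposition 2.3, for a curve -/
  eklC : ∀ x ∈ B.VG, ∀ h ∈ B.Amp, ∀ α β : ℝ, 0 ≤ α → α < β → ∀ W, 1 ≤ B.mm W x →
    (∀ D, B.of h D → α < (B.mx x D : ℝ) → ∃ p, D p ≠ 0 ∧ B.mc p W ≠ 0) →
    ∀ D, B.of h D → β ≤ (B.mx x D : ℝ) → β - α ≤ (B.mC W D : ℝ)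
  /-- finitely many primes are avoided at once -/
  avoid : ∀ x, ∀ h ∈ B.Amp, ∀ α : ℝ, ∀ S : Finset B.V, (∃ D, B.of h D ∧ α < (B.mx x D : ℝ)) →
    (∀ v ∈ S, ∃ D, B.of h D ∧ α < (B.mx x D : ℝ) ∧ D v = 0) →
    ∃ D, B.of h D ∧ α < (B.mx x D : ℝ) ∧ ∀ v ∈ S, D v = 0
  /-- two curves meet in finitely many points -/
  meet : ∀ c e, c ≠ e → {z | 1 ≤ B.mm c z ∧ 1 ≤ B.mm e z}.Finite
  /-- a curve has finitely many singular points -/
  sing : ∀ c, {z | 2 ≤ B.mm c z}.Finite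
  /-- a curve has uncountably many points -/
  unc : ∀ c, ¬ {z | 1 ≤ B.mm c z}.Countable
  /-- a curve through a very general point -/
  vgc : ∀ c x, x ∈ B.VG → 1 ≤ B.mm c x → {z | 1 ≤ B.mm c z ∧ z ∉ B.VG}.Countable
  /-- there are very general points -/
  vgn : B.VG.Nonempty
  /-- the points of multiplicity above all coefficients lie on finitely many curves -/
  fin : ∀ D, B.eff D → ∀ r : ℝ, (∀ p, (D p : ℝ) ≤ r) → {c | r < (B.mC c D : ℝ)}.Finite

variable {B}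

theorem mx_eq (x : B.P) (D : B.V →₀ ℚ) : B.mx x D = ∑ p ∈ D.support, D p * (B.mu p x : ℚ) := by
  simp [mx, Finsupp.linearCombination_apply, Finsupp.sum]

theorem mC_eq (c : B.C) (D : B.V →₀ ℚ) : B.mC c D = ∑ p ∈ D.support, D p * (B.mc p c : ℚ) := by
  simp [mC, Finsupp.linearCombination_apply, Finsupp.sum]

theorem mC_le (F : B.Facts) {D : B.V →₀ ℚ} (hD : B.eff D) {c : B.C} {z : B.P} (hz : 1 ≤ B.mm c z) :
    B.mC c D ≤ B.mx z D := by
  rw [mx_eq, mC_eq]
  refine Finset.sum_le_sum (fun p _ => ?_)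
  exact mul_le_mul_of_nonneg_left (by exact_mod_cast F.mc_le p c z hz) (hD p)

theorem dot_ge' (F : B.Facts) {D : B.V →₀ ℚ} (hD : B.eff D) {c : B.C} (x : B.P)
    (hc : ∀ p, D p ≠ 0 → B.mc p c = 0) :
    B.mx x D * (B.mm c x : ℚ) ≤ B.dot (B.cls D) c := by
  have h1 : B.dot (B.cls D) c = ∑ p ∈ D.support, D p * B.dot (B.cl p) c := by
    simp [cls, Finsupp.linearCombination_apply, Finsupp.sum, map_sum, Finset.sum_apply]
  rw [h1, mx_eq, Finset.sum_mul]
  refine Finset.sum_le_sum (fun p hp => ?_)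
  rw [mul_assoc]
  exact mul_le_mul_of_nonneg_left (F.dot_ge p c x (hc p (Finsupp.mem_support_iff.1 hp))) (hD p)

/-- Step 5 for one class. -/
theorem step5 (F : B.Facts) {x : B.P} (hx : x ∈ B.VG) {h : B.N} (hh : h ∈ B.Amp) {C1 T : ℝ}
    (hC1 : ∀ D, B.of h D → ∀ p, (D p : ℝ) ≤ C1) (hT0 : 0 < T) (hT : C1 < T / 2)
    {D0 : B.V →₀ ℚ} (hD0 : B.of h D0) (hm : T ≤ (B.mx x D0 : ℝ)) :
    ∃ c, 1 ≤ B.mm c x ∧ (B.dot h c : ℝ) ≤ (B.tri h h h : ℝ) / (T / 2) ^ 2 * (B.mm c x : ℝ) := by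
  classical
  obtain ⟨D1, hD1, hm1, hav⟩ := F.avoid x h hh (T / 2)
    (D0.support.filter (fun p => 1 ≤ B.mu p x)) ⟨D0, hD0, by linarith⟩ (by
      intro v hv
      by_contra hcon
      push Not at hcon
      have h1 := F.eklV x hx h hh (T / 2) T (by linarith) (by linarith) v (Finset.mem_filter.1 hv).2
        (fun D hD hα => hcon D hD hα) D0 hD0 hm
      have h2 := hC1 D0 hD0 v
      linarith)
  -- the common part
  set G : B.V →₀ ℚ := D0 ⊓ D1 with hG
  have hGe : B.eff G := fun p => by rw [hG, Finsupp.inf_apply]; exact le_inf (hD0.1 p) (hD1.1 p)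
  have hE0 : B.eff (D0 - G) := fun p => by
    rw [Finsupp.sub_apply, hG, Finsupp.inf_apply]; exact sub_nonneg.2 inf_le_left
  have hE1 : B.eff (D1 - G) := fun p => by
    rw [Finsupp.sub_apply, hG, Finsupp.inf_apply]; exact sub_nonneg.2 inf_le_right
  have hdis : ∀ p, (D0 - G) p = 0 ∨ (D1 - G) p = 0 := by
    intro p
    rw [Finsupp.sub_apply, Finsupp.sub_apply, hG, Finsupp.inf_apply]
    rcases le_total (D0 p) (D1 p) with hle | hle
    · left; rw [inf_eq_left.2 hle, sub_self]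
    · right; rw [inf_eq_right.2 hle, sub_self]
  have hGx : B.mx x G = 0 := by
    rw [mx_eq]
    refine Finset.sum_eq_zero (fun p hp => ?_)
    by_cases hmu : 1 ≤ B.mu p x
    · exfalso
      have hGp := Finsupp.mem_support_iff.1 hp
      have h0 : D0 p ≠ 0 := by
        intro h0
        apply hGp
        rw [hG, Finsupp.inf_apply, h0]
        exact inf_eq_left.2 (hD1.1 p)
      have h1 := hav p (Finset.mem_filter.2 ⟨Finsupp.mem_support_iff.2 h0, hmu⟩)
      apply hGp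
      rw [hG, Finsupp.inf_apply, h1]
      exact inf_eq_right.2 (hD0.1 p)
    · have : B.mu p x = 0 := by omega
      rw [this]; simp
  obtain ⟨Z, hZ0, hZh, hZx⟩ := F.cyc (D0 - G) (D1 - G) hE0 hE1 hdis
  have hZx' := hZx x
  rw [map_sub, map_sub, hGx, sub_zero, sub_zero] at hZx'
  have c0 : B.cls (D0 - G) = h - B.cls G := by rw [map_sub, hD0.2]
  have c1 : B.cls (D1 - G) = h - B.cls G := by rw [map_sub, hD1.2]
  have hZh' := hZh h
  rw [c0, c1] at hZh'
  have hnh := F.amp_nef h hh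
  have hnG : B.nef (B.cls G) := F.eff_nef G hGe
  have hnE1 : B.nef (B.cls (D1 - G)) := F.eff_nef _ hE1
  rw [c1] at hnE1
  have hle : B.tri h (h - B.cls G) (h - B.cls G) ≤ B.tri h h h := by
    have e1 := F.tri_nonneg h (B.cls G) (h - B.cls G) hnh hnG hnE1
    have e2 := F.tri_nonneg h h (B.cls G) hnh hnh hnG
    have e3 : B.tri h (h - B.cls G) (h - B.cls G) =
        B.tri h h h - B.tri h h (B.cls G) - B.tri h (B.cls G) (h - B.cls G) := by
      simp only [map_sub, LinearMap.sub_apply]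
      ring
    rw [e3]; linarith
  -- choose the component
  by_contra hcon
  push Not at hcon
  have hA : 0 < (T / 2) ^ 2 := by positivity
  set K : ℝ := (B.tri h h h : ℝ) / (T / 2) ^ 2 with hK
  have s1 : ((Z.sum (fun c a => a * (B.mm c x : ℚ)) : ℚ) : ℝ) = ∑ c ∈ Z.support, (Z c : ℝ) * (B.mm c x : ℝ) := by
    simp [Finsupp.sum]
  have s2 : ((Z.sum (fun c a => a * B.dot h c) : ℚ) : ℝ) = ∑ c ∈ Z.support, (Z c : ℝ) * (B.dot h c : ℝ) := by
    simp [Finsupp.sum]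
  have hX : (T / 2) ^ 2 < ∑ c ∈ Z.support, (Z c : ℝ) * (B.mm c x : ℝ) := by
    rw [← s1]
    have h2 : ((B.mx x D0 * B.mx x D1 : ℚ) : ℝ) ≤ ((Z.sum (fun c a => a * (B.mm c x : ℚ)) : ℚ) : ℝ) := by
      exact_mod_cast hZx'
    refine lt_of_lt_of_le ?_ h2
    push_cast
    nlinarith
  have hY : ∑ c ∈ Z.support, (Z c : ℝ) * (B.dot h c : ℝ) ≤ (B.tri h h h : ℝ) := by
    rw [← s2, hZh']
    exact_mod_cast hle
  -- there is a component through the point
  have hex : ∃ c ∈ Z.support, 0 < (Z c : ℝ) * (B.mm c x : ℝ) := by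
    by_contra hne
    push Not at hne
    have := Finset.sum_nonpos hne
    linarith
  have hXY : K * ∑ c ∈ Z.support, (Z c : ℝ) * (B.mm c x : ℝ) < ∑ c ∈ Z.support, (Z c : ℝ) * (B.dot h c : ℝ) := by
    rw [Finset.mul_sum]
    refine Finset.sum_lt_sum (fun c hc => ?_) ?_
    · by_cases hm : 1 ≤ B.mm c x
      · have h3 := hcon c hm
        have h4 : (0 : ℝ) ≤ (Z c : ℝ) := by exact_mod_cast hZ0 c
        nlinarith [mul_le_mul_of_nonneg_left h3.le h4]
      · have h3 : B.mm c x = 0 := by omega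
        have h4 : (0 : ℝ) ≤ (Z c : ℝ) := by exact_mod_cast hZ0 c
        have h5 : (0 : ℝ) ≤ (B.dot h c : ℝ) := by exact_mod_cast hnh c
        rw [h3]; simp only [Nat.cast_zero, mul_zero]; positivity
    · obtain ⟨c, hc, hpos⟩ := hex
      refine ⟨c, hc, ?_⟩
      have h4 : (0 : ℝ) ≤ (Z c : ℝ) := by exact_mod_cast hZ0 c
      have hm : 1 ≤ B.mm c x := by
        by_contra hm
        have h3 : B.mm c x = 0 := by omega
        rw [h3] at hpos; simp at hpos
      have h6 : (0 : ℝ) < (Z c : ℝ) := by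
        rcases h4.lt_or_eq with h7 | h7
        · exact h7
        · rw [← h7] at hpos; simp at hpos
      have h3 := hcon c hm
      nlinarith [mul_lt_mul_of_pos_left h3 h6]
  have hK0 : 0 ≤ K := by
    rw [hK]
    refine div_nonneg ?_ hA.le
    exact_mod_cast F.tri_nonneg h h h hnh hnh hnh
  have hfin : K * (T / 2) ^ 2 = (B.tri h h h : ℝ) := by
    rw [hK]; field_simp
  nlinarith [mul_le_mul_of_nonneg_left hX.le hK0]

/-- Step 6 for one class. -/
theorem step6 (F : B.Facts) {x : B.P} (hx : x ∈ B.VG) {h : B.N} (hh : h ∈ B.Amp) {C1 K t : ℝ}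
    (hC1 : ∀ D, B.of h D → ∀ p, (D p : ℝ) ≤ C1) (hK : 0 ≤ K) (hC10 : 0 ≤ C1) (ht : C1 + 2 * K < t)
    {D : B.V →₀ ℚ} (hD : B.of h D) (hm : t ≤ (B.mx x D : ℝ)) {c : B.C} (hcx : 1 ≤ B.mm c x)
    (hc : (B.dot h c : ℝ) ≤ K * (B.mm c x : ℝ)) :
    {z | 1 ≤ B.mm c z ∧ z ∈ B.VG ∧ ∃ e, e ≠ c ∧ 1 ≤ B.mm e z ∧ (B.dot h e : ℝ) ≤ K * (B.mm e z : ℝ)}.Finite := by
  -- a curve of small degree is contained in the divisors of large multiplicity
  have key : ∀ (z : B.P) (e : B.C), z ∈ B.VG → 1 ≤ B.mm e z → (B.dot h e : ℝ) ≤ K * (B.mm e z : ℝ) →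
      ∀ E, B.of h E → K < (B.mx z E : ℝ) → ∃ p, E p ≠ 0 ∧ B.mc p e ≠ 0 := by
    intro z e hz he hde E hE hKE
    by_contra hcon
    push Not at hcon
    have h1 := dot_ge' F hE.1 z (c := e) hcon
    rw [hE.2] at h1
    have h2 : (B.mx z E : ℝ) * (B.mm e z : ℝ) ≤ (B.dot h e : ℝ) := by exact_mod_cast h1
    have h3 : (1 : ℝ) ≤ (B.mm e z : ℝ) := by exact_mod_cast he
    nlinarith
  have hcD : t - K ≤ (B.mC c D : ℝ) :=
    F.eklC x hx h hh K t hK (by linarith) c hcx (fun E hE hα => key x c hx hcx hc E hE hα) D hD hm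
  have hfin := F.fin D hD.1 C1 (hC1 D hD)
  refine Set.Finite.subset (Set.Finite.biUnion (s := {e | C1 < (B.mC e D : ℝ)} \ {c})
    (hfin.subset Set.diff_subset) (t := fun e => {z | 1 ≤ B.mm c z ∧ 1 ≤ B.mm e z}) (fun e he => ?_)) ?_
  · exact F.meet c e (fun hce => he.2 (by simp [hce]))
  · rintro z ⟨hcz, hz, e, hec, hez, hde⟩
    have h1 : t - K ≤ (B.mx z D : ℝ) := by
      have h2 := mC_le F hD.1 hcz
      have h3 : (B.mC c D : ℝ) ≤ (B.mx z D : ℝ) := by exact_mod_cast h2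
      linarith
    have h4 := F.eklC z hz h hh K (t - K) hK (by linarith) e hez
      (fun E hE hα => key z e hz hez hde E hE hα) D hD h1
    refine Set.mem_biUnion (x := e) ⟨?_, ?_⟩ ⟨hcz, hez⟩
    · show C1 < (B.mC e D : ℝ)
      linarith
    · exact hec

/-- A curve through a very general point has a very general point outside a given countable set,
at which it is smooth. -/
theorem pick (F : B.Facts) {c : B.C} {x : B.P} (hx : x ∈ B.VG) (hcx : 1 ≤ B.mm c x) {S : Set B.P}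
    (hS : S.Countable) : ∃ z, z ∈ B.VG ∧ B.mm c z = 1 ∧ z ∉ S := by
  by_contra hcon
  push Not at hcon
  apply F.unc c
  refine Set.Countable.mono ?_ (((F.vgc c x hx hcx).union (F.sing c).countable).union hS)
  intro z hz
  by_cases h1 : z ∈ B.VG
  · by_cases h2 : 2 ≤ B.mm c z
    · exact Or.inl (Or.inr h2)
    · have h3 : B.mm c z = 1 := by
        have : 1 ≤ B.mm c z := hz
        omega
      exact Or.inr (hcon z h1 h3)
  · exact Or.inl (Or.inl ⟨hz, h1⟩)

/-- **Steps 5, 6, 7.** -/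
theorem exists_bounded_curve (F : B.Facts) (h : ℕ → B.N) (b : ℕ → ℝ) (q C1 cc lam : ℝ)
    (hA : ∀ n, h n ∈ B.Amp) (hq : ∀ n, (B.tri (h n) (h n) (h n) : ℝ) ≤ q * b n)
    (hb : Tendsto b atTop atTop) (hlam0 : 0 ≤ lam)
    (hlam : ∀ n c, (B.dot (h n) c : ℝ) ≤ lam * (B.dot (h (n + 1)) c : ℝ))
    (hC1 : ∀ n D, B.of (h n) D → ∀ p, (D p : ℝ) ≤ C1) (hcc : 0 < cc)
    (hw : ∀ n, ∀ x ∈ B.VG, ∀ t : ℝ, t < cc * Real.sqrt (b n) → ∃ D, B.of (h n) D ∧ t ≤ (B.mx x D : ℝ)) :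
    ∃ (c : B.C) (n0 : ℕ) (K : ℝ), ∀ m, n0 ≤ m → (B.dot (h m) c : ℝ) ≤ K := by
  classical
  set C1' : ℝ := max C1 0 with hC1'
  have hC10 : 0 ≤ C1' := le_max_right _ _
  have hC1b : ∀ n D, B.of (h n) D → ∀ p, (D p : ℝ) ≤ C1' := fun n D hD p =>
    (hC1 n D hD p).trans (le_max_left _ _)
  set C3 : ℝ := 16 * |q| / cc ^ 2 with hC3
  have hC30 : 0 ≤ C3 := by positivity
  set K : ℝ := max 1 lam * C3 with hK
  have hK0 : 0 ≤ K := mul_nonneg (le_trans zero_le_one (le_max_left _ _)) hC30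
  have hC3K : C3 ≤ K := by
    have : (1 : ℝ) ≤ max 1 lam := le_max_left _ _
    nlinarith
  have hlK : lam * C3 ≤ K := mul_le_mul_of_nonneg_right (le_max_right _ _) hC30
  set Q : ℝ := (4 * C1' + 2 * K + 8) / cc with hQ
  have hQ0 : 0 < Q := by positivity
  obtain ⟨n0, hn0⟩ := (hb.eventually_ge_atTop (Q ^ 2)).exists_forall_of_atTop
  have hbig : ∀ m, n0 ≤ m → 0 < b m ∧ 4 * C1' + 2 * K + 8 ≤ cc * Real.sqrt (b m) := by
    intro m hm
    have h1 := hn0 m hm
    refine ⟨lt_of_lt_of_le (by positivity) h1, ?_⟩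
    have h2 : Q ≤ Real.sqrt (b m) := Real.le_sqrt_of_sq_le h1
    have h3 : cc * Q = 4 * C1' + 2 * K + 8 := by rw [hQ]; field_simp
    rw [← h3]
    exact mul_le_mul_of_nonneg_left h2 hcc.le
  -- Step 5
  have P1 : ∀ m, n0 ≤ m → ∀ x ∈ B.VG, ∃ c, 1 ≤ B.mm c x ∧ (B.dot (h m) c : ℝ) ≤ C3 * (B.mm c x : ℝ) := by
    intro m hm x hx
    obtain ⟨hb0, hb1⟩ := hbig m hm
    have hs : 0 < Real.sqrt (b m) := Real.sqrt_pos.2 hb0
    obtain ⟨D0, hD0, hD0m⟩ := hw m x hx (cc * Real.sqrt (b m) / 2) (by nlinarith [mul_pos hcc hs])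
    obtain ⟨c, hc1, hc2⟩ := step5 F hx (hA m) (hC1b m) (T := cc * Real.sqrt (b m) / 2) (by positivity)
      (by linarith) hD0 hD0m
    refine ⟨c, hc1, hc2.trans (mul_le_mul_of_nonneg_right ?_ (Nat.cast_nonneg _))⟩
    have h4 : (cc * Real.sqrt (b m) / 2 / 2) ^ 2 = cc ^ 2 * b m / 16 := by
      have : Real.sqrt (b m) ^ 2 = b m := Real.sq_sqrt hb0.le
      calc (cc * Real.sqrt (b m) / 2 / 2) ^ 2 = cc ^ 2 * Real.sqrt (b m) ^ 2 / 16 := by ring
        _ = _ := by rw [this]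
    rw [h4, div_le_iff₀ (by positivity)]
    have h5 : C3 * (cc ^ 2 * b m / 16) = |q| * b m := by
      rw [hC3]; field_simp
    rw [h5]
    exact (hq m).trans (mul_le_mul_of_nonneg_right (le_abs_self q) hb0.le)
  -- Step 6
  have P2 : ∀ m, n0 ≤ m → ∀ x ∈ B.VG, ∀ c, 1 ≤ B.mm c x → (B.dot (h m) c : ℝ) ≤ K * (B.mm c x : ℝ) →
      {z | 1 ≤ B.mm c z ∧ z ∈ B.VG ∧
        ∃ e, e ≠ c ∧ 1 ≤ B.mm e z ∧ (B.dot (h m) e : ℝ) ≤ K * (B.mm e z : ℝ)}.Finite := by
    intro m hm x hx c hcx hc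
    obtain ⟨hb0, hb1⟩ := hbig m hm
    obtain ⟨D, hD, hDm⟩ := hw m x hx (C1' + 2 * K + 1) (by linarith)
    exact step6 F hx (hA m) (hC1b m) hK0 hC10 (by linarith) hD hDm hcx hc
  obtain ⟨x, hx⟩ := F.vgn
  obtain ⟨c, hcx, hc⟩ := P1 n0 le_rfl x hx
  refine ⟨c, n0, C3, fun m hm => ?_⟩
  induction m, hm using Nat.le_induction with
  | base =>
    have hS := P2 n0 le_rfl x hx c hcx (hc.trans (mul_le_mul_of_nonneg_right hC3K (Nat.cast_nonneg _)))
    obtain ⟨z, hz, hcz, hzS⟩ := pick F hx hcx hS.countable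
    obtain ⟨e, hez, he⟩ := P1 n0 le_rfl z hz
    have hec : e = c := by
      by_contra hne
      exact hzS ⟨hcz.ge, hz, e, hne, hez, he.trans (mul_le_mul_of_nonneg_right hC3K (Nat.cast_nonneg _))⟩
    rw [hec, hcz] at he
    simpa using he
  | succ m hm ih =>
    obtain ⟨x', hx', hcx', -⟩ := pick F hx hcx (S := ∅) Set.countable_empty
    have hS := P2 m hm x' hx' c hcx'.ge (by rw [hcx']; simpa using ih.trans hC3K)
    obtain ⟨z, hz, hcz, hzS⟩ := pick F hx hcx hS.countable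
    obtain ⟨e, hez, he⟩ := P1 (m + 1) (by omega) z hz
    have hec : e = c := by
      by_contra hne
      refine hzS ⟨hcz.ge, hz, e, hne, hez, (hlam m e).trans ?_⟩
      calc lam * (B.dot (h (m + 1)) e : ℝ) ≤ lam * (C3 * (B.mm e z : ℝ)) :=
            mul_le_mul_of_nonneg_left he hlam0
        _ = (lam * C3) * (B.mm e z : ℝ) := by ring
        _ ≤ K * (B.mm e z : ℝ) := mul_le_mul_of_nonneg_right hlK (Nat.cast_nonneg _)
    rw [hec, hcz] at he
    simpa using he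

end Bk

end Pool.Agent.H23.OG
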